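import Pool.Agent.J4H58.OC.Stm

/-!
# Poincare inequalities: from compactly supported functions to all functions (job OC-EXT)
-/

set_option autoImplicit false

namespace Pool.Agent.J4H21.OC.Ext

open MeasureTheory Filter Topology ProbabilityTheory
open scoped ENNReal
open Pool.Agent.J4H58.OC (S_EXT)

/-- Euclidean space -/
abbrev E (n : ℕ) := EuclideanSpace ℝ (Fin n)

theorem cutoff (n : ℕ) : ∃ (χ : ℕ → E n → ℝ) (C : ℝ), 0 ≤ C ∧ (∀ N, ContDiff ℝ 1 (χ N)) ∧
    (∀ N, HasCompactSupport (χ N)) ∧ (∀ N x, 0 ≤ χ N x ∧ χ N x ≤ 1) ∧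
    (∀ x, ∀ᶠ N in atTop, χ N x = 1) ∧ (∀ N x, ‖fderiv ℝ (χ N) x‖ ≤ C / (N + 1)) := by
  let b : ContDiffBump (0 : E n) := ⟨1, 2, by norm_num, by norm_num⟩
  have hb : ContDiff ℝ 1 (b : E n → ℝ) := b.contDiff
  obtain ⟨C, hC⟩ := (hb.continuous_fderiv (by norm_num)).bounded_above_of_compact_support
    (b.hasCompactSupport.fderiv (𝕜 := ℝ))
  have hC0 : 0 ≤ C := (norm_nonneg _).trans (hC 0)
  have hN : ∀ N : ℕ, (0 : ℝ) < (N : ℝ) + 1 := fun N => by positivity
  refine ⟨fun N x => b (((N : ℝ) + 1)⁻¹ • x), C, hC0, ?_, ?_, ?_, ?_, ?_⟩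
  · intro N
    exact hb.comp (contDiff_const_smul _)
  · intro N
    exact b.hasCompactSupport.comp_smul (inv_ne_zero (hN N).ne')
  · intro N x
    exact ⟨b.nonneg, b.le_one⟩
  · intro x
    filter_upwards [eventually_ge_atTop (Nat.ceil ‖x‖)] with N hNx
    apply b.one_of_mem_closedBall
    rw [mem_closedBall_zero_iff, norm_smul, norm_inv, Real.norm_of_nonneg (hN N).le]
    rw [inv_mul_le_iff₀ (hN N)]
    have h1 := Nat.le_ceil ‖x‖
    have h2 : ((Nat.ceil ‖x‖ : ℕ) : ℝ) ≤ N := by exact_mod_cast hNx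
    show ‖x‖ ≤ ((N : ℝ) + 1) * 1
    linarith
  · intro N x
    rw [fderiv_comp_smul]
    rw [norm_smul, norm_inv, Real.norm_of_nonneg (hN N).le, inv_mul_eq_div]
    exact div_le_div_of_nonneg_right (hC _) (hN N).le

variable {n : ℕ}

theorem bdd_case (μ : Measure (E n)) [IsProbabilityMeasure μ] (K : ℝ)
    (H : ∀ f : E n → ℝ, ContDiff ℝ 1 f → HasCompactSupport f →
      ∫ x, f x ^ 2 ∂μ - (∫ x, f x ∂μ) ^ 2 ≤ K * ∫ x, ‖fderiv ℝ f x‖ ^ 2 ∂μ)
    (f : E n → ℝ) (hf : ContDiff ℝ 1 f) (B : ℝ) (hB : ∀ x, |f x| ≤ B)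
    (hi : Integrable (fun x => ‖fderiv ℝ f x‖ ^ 2) μ) :
    ∫ x, f x ^ 2 ∂μ - (∫ x, f x ∂μ) ^ 2 ≤ K * ∫ x, ‖fderiv ℝ f x‖ ^ 2 ∂μ := by
  obtain ⟨χ, C, hC0, hχ1, hχ2, hχ3, hχ4, hχ5⟩ := cutoff n
  have hB0 : 0 ≤ B := (abs_nonneg _).trans (hB 0)
  have hg1 : ∀ N, ContDiff ℝ 1 (fun x => f x * χ N x) := fun N => hf.mul (hχ1 N)
  have hgs : ∀ N, HasCompactSupport (fun x => f x * χ N x) := fun N => (hχ2 N).mul_left
  have hdf : ∀ N x, fderiv ℝ (fun x => f x * χ N x) x =
      f x • fderiv ℝ (χ N) x + χ N x • fderiv ℝ f x := by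
    intro N x
    exact fderiv_fun_mul ((hf.differentiable (by norm_num)) x)
      (((hχ1 N).differentiable (by norm_num)) x)
  have hab : ∀ N x, |f x * χ N x| ≤ B := by
    intro N x
    rw [abs_mul, abs_of_nonneg (hχ3 N x).1]
    calc |f x| * χ N x ≤ |f x| * 1 := mul_le_mul_of_nonneg_left (hχ3 N x).2 (abs_nonneg _)
      _ ≤ B := by rw [mul_one]; exact hB x
  have hlim : ∀ x, Tendsto (fun N => f x * χ N x) atTop (𝓝 (f x)) := by
    intro x
    apply tendsto_const_nhds.congr'
    filter_upwards [hχ4 x] with N hN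
    rw [hN, mul_one]
  have t1 : Tendsto (fun N => ∫ x, (f x * χ N x) ^ 2 ∂μ) atTop (𝓝 (∫ x, f x ^ 2 ∂μ)) := by
    apply tendsto_integral_of_dominated_convergence (fun _ => B ^ 2)
    · intro N
      exact ((hg1 N).continuous.pow 2).aestronglyMeasurable
    · exact integrable_const _
    · intro N
      refine Eventually.of_forall fun x => ?_
      rw [Real.norm_of_nonneg (sq_nonneg _)]
      exact sq_le_sq' (by have := abs_le.1 (hab N x); linarith) (abs_le.1 (hab N x)).2
    · exact Eventually.of_forall fun x => (hlim x).pow 2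
  have t2 : Tendsto (fun N => ∫ x, f x * χ N x ∂μ) atTop (𝓝 (∫ x, f x ∂μ)) := by
    apply tendsto_integral_of_dominated_convergence (fun _ => B)
    · intro N
      exact ((hg1 N).continuous).aestronglyMeasurable
    · exact integrable_const _
    · intro N
      exact Eventually.of_forall fun x => hab N x
    · exact Eventually.of_forall fun x => hlim x
  have t3 : Tendsto (fun N => ∫ x, ‖fderiv ℝ (fun x => f x * χ N x) x‖ ^ 2 ∂μ) atTop
      (𝓝 (∫ x, ‖fderiv ℝ f x‖ ^ 2 ∂μ)) := by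
    apply tendsto_integral_of_dominated_convergence
      (fun x => 2 * (B * C) ^ 2 + 2 * ‖fderiv ℝ f x‖ ^ 2)
    · intro N
      exact ((((hg1 N).continuous_fderiv (by norm_num)).norm).pow 2).aestronglyMeasurable
    · exact (integrable_const _).add (hi.const_mul 2)
    · intro N
      refine Eventually.of_forall fun x => ?_
      rw [Real.norm_of_nonneg (sq_nonneg _), hdf]
      have h1 : ‖f x • fderiv ℝ (χ N) x + χ N x • fderiv ℝ f x‖ ≤ B * C + ‖fderiv ℝ f x‖ := by
        refine (norm_add_le _ _).trans (add_le_add ?_ ?_)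
        · rw [norm_smul]
          apply mul_le_mul (hB x) _ (norm_nonneg _) hB0
          refine (hχ5 N x).trans ?_
          apply div_le_self hC0
          have : (0 : ℝ) ≤ N := Nat.cast_nonneg N
          linarith
        · rw [norm_smul, Real.norm_of_nonneg (hχ3 N x).1]
          calc χ N x * ‖fderiv ℝ f x‖ ≤ 1 * ‖fderiv ℝ f x‖ :=
                mul_le_mul_of_nonneg_right (hχ3 N x).2 (norm_nonneg _)
            _ = _ := one_mul _
      have h2 : ‖f x • fderiv ℝ (χ N) x + χ N x • fderiv ℝ f x‖ ^ 2 ≤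
          (B * C + ‖fderiv ℝ f x‖) ^ 2 := pow_le_pow_left₀ (norm_nonneg _) h1 2
      nlinarith [sq_nonneg (B * C - ‖fderiv ℝ f x‖)]
    · refine Eventually.of_forall fun x => ?_
      apply Tendsto.pow
      apply Tendsto.norm
      simp only [hdf]
      have a1 : Tendsto (fun N => f x • fderiv ℝ (χ N) x) atTop (𝓝 0) := by
        apply squeeze_zero_norm (a := fun N : ℕ => B * (C / ((N : ℝ) + 1)))
        · intro N
          rw [norm_smul]
          exact mul_le_mul (hB x) (hχ5 N x) (norm_nonneg _) hB0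
        · have := (tendsto_one_div_add_atTop_nhds_zero_nat (𝕜 := ℝ)).const_mul (B * C)
          rw [mul_zero] at this
          apply this.congr
          intro N
          ring
      have a2 : Tendsto (fun N => χ N x • fderiv ℝ f x) atTop (𝓝 (fderiv ℝ f x)) := by
        apply tendsto_const_nhds.congr'
        filter_upwards [hχ4 x] with N hN
        rw [hN, one_smul]
      simpa using a1.add a2
  exact le_of_tendsto_of_tendsto' (t1.sub (t2.pow 2)) (t3.const_mul K)
    (fun N => H _ (hg1 N) (hgs N))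

theorem arctan_abs (t : ℝ) : |Real.arctan t| ≤ |t| := by
  have h := convex_univ.norm_image_sub_le_of_norm_deriv_le (f := Real.arctan) (C := 1) (x := 0)
    (y := t) (fun x _ => Real.differentiableAt_arctan x) (fun x _ => by
      rw [Real.deriv_arctan, Real.norm_of_nonneg (by positivity), div_le_one (by positivity)]
      nlinarith [sq_nonneg x]) (Set.mem_univ _) (Set.mem_univ _)
  simpa using h

theorem two_point (μ : Measure (E n)) [IsProbabilityMeasure μ] (g : E n → ℝ) (hg : Continuous g)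
    (B : ℝ) (hB : ∀ x, |g x| ≤ B) :
    ∫⁻ y, ∫⁻ x, ENNReal.ofReal ((g x - g y) ^ 2) ∂μ ∂μ =
      ENNReal.ofReal (2 * (∫ x, g x ^ 2 ∂μ - (∫ x, g x ∂μ) ^ 2)) := by
  have hi1 : Integrable g μ := by
    refine (integrable_const B).mono' hg.aestronglyMeasurable (Eventually.of_forall hB)
  have hi2 : Integrable (fun x => g x ^ 2) μ := by
    refine (integrable_const (B ^ 2)).mono' (hg.pow 2).aestronglyMeasurable
      (Eventually.of_forall fun x => ?_)
    rw [Real.norm_of_nonneg (sq_nonneg _)]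
    exact sq_le_sq' (by have := abs_le.1 (hB x); linarith) (abs_le.1 (hB x)).2
  have hi3 : ∀ c : ℝ, Integrable (fun x => (g x - c) ^ 2) μ := by
    intro c
    have : (fun x => (g x - c) ^ 2) = fun x => g x ^ 2 - (2 * c) * g x + c ^ 2 := by
      funext x; ring
    rw [this]
    exact (hi2.sub (hi1.const_mul _)).add (integrable_const _)
  have e1 : ∀ c : ℝ, ∫ x, (g x - c) ^ 2 ∂μ = ∫ x, g x ^ 2 ∂μ - (2 * c) * ∫ x, g x ∂μ + c ^ 2 := by
    intro c
    have : (fun x => (g x - c) ^ 2) = fun x => (g x ^ 2 - (2 * c) * g x) + c ^ 2 := by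
      funext x; ring
    have a1 : Integrable (fun x => g x ^ 2 - (2 * c) * g x) μ := hi2.sub (hi1.const_mul _)
    rw [this, integral_add a1 (integrable_const _),
      integral_sub hi2 (hi1.const_mul _), integral_const_mul]
    simp
  have e2 : ∀ y, ∫⁻ x, ENNReal.ofReal ((g x - g y) ^ 2) ∂μ =
      ENNReal.ofReal (∫ x, g x ^ 2 ∂μ - (2 * g y) * ∫ x, g x ∂μ + g y ^ 2) := by
    intro y
    rw [← e1 (g y), ofReal_integral_eq_lintegral_ofReal (hi3 (g y))
      (Eventually.of_forall fun x => sq_nonneg _)]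
  simp_rw [e2]
  have hi4 : Integrable (fun y => ∫ x, g x ^ 2 ∂μ - (2 * g y) * ∫ x, g x ∂μ + g y ^ 2) μ := by
    have : (fun y => ∫ x, g x ^ 2 ∂μ - (2 * g y) * ∫ x, g x ∂μ + g y ^ 2) =
        fun y => (∫ x, g x ^ 2 ∂μ - (2 * ∫ x, g x ∂μ) * g y) + g y ^ 2 := by
      funext y; ring
    rw [this]
    exact ((integrable_const _).sub (hi1.const_mul _)).add hi2
  rw [← ofReal_integral_eq_lintegral_ofReal hi4]
  · congr 1
    have : (fun y => ∫ x, g x ^ 2 ∂μ - (2 * g y) * ∫ x, g x ∂μ + g y ^ 2) =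
        fun y => (∫ x, g x ^ 2 ∂μ - (2 * ∫ x, g x ∂μ) * g y) + g y ^ 2 := by
      funext y; ring
    have a1 : Integrable (fun y => ∫ x, g x ^ 2 ∂μ - (2 * ∫ x, g x ∂μ) * g y) μ :=
      (integrable_const _).sub (hi1.const_mul _)
    rw [this, integral_add a1 hi2,
      integral_sub (integrable_const _) (hi1.const_mul _), integral_const_mul]
    simp
    ring
  · refine Eventually.of_forall fun y => ?_
    show 0 ≤ ∫ x, g x ^ 2 ∂μ - (2 * g y) * ∫ x, g x ∂μ + g y ^ 2
    rw [← e1 (g y)]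
    exact integral_nonneg fun x => sq_nonneg _

theorem t_EXT : S_EXT := by
  intro n μ hμ K hK H f hf
  by_cases hfin : ∫⁻ x, ENNReal.ofReal (‖fderiv ℝ f x‖ ^ 2) ∂μ = ∞
  · rw [hfin, ENNReal.mul_top]
    · exact le_top
    · simpa using hK
  have hcd : Continuous (fun x => ‖fderiv ℝ f x‖ ^ 2) :=
    ((hf.continuous_fderiv (by norm_num)).norm).pow 2
  have hi : Integrable (fun x => ‖fderiv ℝ f x‖ ^ 2) μ := by
    refine ⟨hcd.aestronglyMeasurable, ?_⟩
    rw [hasFiniteIntegral_iff_ofReal (Eventually.of_forall fun x => sq_nonneg _)]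
    exact lt_top_iff_ne_top.2 hfin
  set V : ℝ := K * ∫ x, ‖fderiv ℝ f x‖ ^ 2 ∂μ with hV
  -- truncation
  let g : ℕ → E n → ℝ := fun k x => ((k : ℝ) + 1) * Real.arctan (f x / ((k : ℝ) + 1))
  have hk : ∀ k : ℕ, (0 : ℝ) < (k : ℝ) + 1 := fun k => by positivity
  have hgc : ∀ k, ContDiff ℝ 1 (g k) := fun k =>
    contDiff_const.mul (Real.contDiff_arctan.comp (hf.div_const _))
  have hgB : ∀ k x, |g k x| ≤ ((k : ℝ) + 1) * (Real.pi / 2) := by
    intro k x
    rw [abs_mul, abs_of_pos (hk k)]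
    apply mul_le_mul_of_nonneg_left _ (hk k).le
    rw [abs_le]
    exact ⟨(Real.neg_pi_div_two_lt_arctan _).le, (Real.arctan_lt_pi_div_two _).le⟩
  have hgd : ∀ k x, ‖fderiv ℝ (g k) x‖ ≤ ‖fderiv ℝ f x‖ := by
    intro k x
    have h1 : HasFDerivAt (fun x => f x / ((k : ℝ) + 1)) (((k : ℝ) + 1)⁻¹ • fderiv ℝ f x) x := by
      have := ((hf.differentiable (by norm_num)) x).hasFDerivAt.const_smul (((k : ℝ) + 1)⁻¹)
      refine this.congr_of_eventuallyEq (Eventually.of_forall fun y => ?_)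
      simp [div_eq_inv_mul]
    have h2 := (h1.arctan).const_smul ((k : ℝ) + 1)
    have h3 : fderiv ℝ (g k) x = ((k : ℝ) + 1) • ((1 / (1 + (f x / ((k : ℝ) + 1)) ^ 2)) •
        (((k : ℝ) + 1)⁻¹ • fderiv ℝ f x)) := by
      exact HasFDerivAt.fderiv h2
    rw [h3, norm_smul, norm_smul, norm_smul, norm_inv, Real.norm_of_nonneg (hk k).le]
    have h4 : ‖1 / (1 + (f x / ((k : ℝ) + 1)) ^ 2)‖ ≤ 1 := by
      rw [Real.norm_of_nonneg (by positivity)]
      rw [div_le_one (by positivity)]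
      nlinarith [sq_nonneg (f x / ((k : ℝ) + 1))]
    calc ((k : ℝ) + 1) * (‖1 / (1 + (f x / ((k : ℝ) + 1)) ^ 2)‖ *
          (((k : ℝ) + 1)⁻¹ * ‖fderiv ℝ f x‖))
        = ‖1 / (1 + (f x / ((k : ℝ) + 1)) ^ 2)‖ * ‖fderiv ℝ f x‖ := by
          field_simp
      _ ≤ 1 * ‖fderiv ℝ f x‖ := mul_le_mul_of_nonneg_right h4 (norm_nonneg _)
      _ = _ := one_mul _
  have hgi : ∀ k, Integrable (fun x => ‖fderiv ℝ (g k) x‖ ^ 2) μ := by
    intro k
    refine hi.mono' ((((hgc k).continuous_fderiv (by norm_num)).norm).pow 2).aestronglyMeasurable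
      (Eventually.of_forall fun x => ?_)
    rw [Real.norm_of_nonneg (sq_nonneg _)]
    exact pow_le_pow_left₀ (norm_nonneg _) (hgd k x) 2
  have hgV : ∀ k, ∫ x, g k x ^ 2 ∂μ - (∫ x, g k x ∂μ) ^ 2 ≤ V := by
    intro k
    refine (bdd_case μ K H (g k) (hgc k) _ (hgB k) (hgi k)).trans ?_
    apply mul_le_mul_of_nonneg_left _ hK.le
    apply integral_mono (hgi k) hi
    intro x
    exact pow_le_pow_left₀ (norm_nonneg _) (hgd k x) 2
  have hglim : ∀ x, Tendsto (fun k => g k x) atTop (𝓝 (f x)) := by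
    intro x
    by_cases hx : f x = 0
    · simp [g, hx]
    have h1 : HasDerivAt Real.arctan 1 0 := by
      simpa using Real.hasDerivAt_arctan 0
    rw [hasDerivAt_iff_tendsto_slope_zero] at h1
    have h2 : Tendsto (fun k : ℕ => f x / ((k : ℝ) + 1)) atTop (𝓝[≠] 0) := by
      rw [tendsto_nhdsWithin_iff]
      refine ⟨?_, Eventually.of_forall fun k => ?_⟩
      · have := (tendsto_one_div_add_atTop_nhds_zero_nat (𝕜 := ℝ)).const_mul (f x)
        rw [mul_zero] at this
        apply this.congr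
        intro k; ring
      · exact div_ne_zero hx (hk k).ne'
    have h3 := (h1.comp h2).const_mul (f x)
    rw [mul_one] at h3
    apply h3.congr
    intro k
    simp only [Function.comp, zero_add, Real.arctan_zero, sub_zero, smul_eq_mul, g]
    have := (hk k).ne'
    field_simp
  -- Fatou
  have hF : ∫⁻ y, ∫⁻ x, ENNReal.ofReal ((f x - f y) ^ 2) ∂μ ∂μ ≤ ENNReal.ofReal (2 * V) := by
    have s1 : ∀ y, ∫⁻ x, ENNReal.ofReal ((f x - f y) ^ 2) ∂μ ≤
        liminf (fun k => ∫⁻ x, ENNReal.ofReal ((g k x - g k y) ^ 2) ∂μ) atTop := by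
      intro y
      have : ∀ x, ENNReal.ofReal ((f x - f y) ^ 2) =
          liminf (fun k => ENNReal.ofReal ((g k x - g k y) ^ 2)) atTop := by
        intro x
        exact (((ENNReal.continuous_ofReal.tendsto _).comp
          (((hglim x).sub (hglim y)).pow 2)).liminf_eq).symm
      simp_rw [this]
      apply lintegral_liminf_le
      intro k
      exact (ENNReal.measurable_ofReal.comp
        ((((hgc k).continuous.sub continuous_const).pow 2).measurable))
    calc ∫⁻ y, ∫⁻ x, ENNReal.ofReal ((f x - f y) ^ 2) ∂μ ∂μ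
        ≤ ∫⁻ y, liminf (fun k => ∫⁻ x, ENNReal.ofReal ((g k x - g k y) ^ 2) ∂μ) atTop ∂μ :=
          lintegral_mono s1
      _ ≤ liminf (fun k => ∫⁻ y, ∫⁻ x, ENNReal.ofReal ((g k x - g k y) ^ 2) ∂μ ∂μ) atTop := by
          apply lintegral_liminf_le
          intro k
          have hm : Measurable (fun p : E n × E n => ENNReal.ofReal ((g k p.2 - g k p.1) ^ 2)) := by
            apply ENNReal.measurable_ofReal.comp
            exact ((((hgc k).continuous.comp continuous_snd).sub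
              ((hgc k).continuous.comp continuous_fst)).pow 2).measurable
          exact hm.lintegral_prod_right'
      _ ≤ liminf (fun _ : ℕ => ENNReal.ofReal (2 * V)) atTop := by
          have q1 : ∀ k, ∫⁻ y, ∫⁻ x, ENNReal.ofReal ((g k x - g k y) ^ 2) ∂μ ∂μ ≤
              ENNReal.ofReal (2 * V) := by
            intro k
            rw [two_point μ (g k) (hgc k).continuous _ (hgB k)]
            exact ENNReal.ofReal_le_ofReal (by linarith [hgV k])
          exact liminf_le_liminf (Eventually.of_forall q1)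
      _ = ENNReal.ofReal (2 * V) := by simp
  have hex : ∃ y, ∫⁻ x, ENNReal.ofReal ((f x - f y) ^ 2) ∂μ < ∞ := by
    by_contra hno
    push Not at hno
    have h1 : ∫⁻ y, ∫⁻ x, ENNReal.ofReal ((f x - f y) ^ 2) ∂μ ∂μ = ∞ := by
      have : ∀ y, ∫⁻ x, ENNReal.ofReal ((f x - f y) ^ 2) ∂μ = ∞ := fun y => top_le_iff.1 (hno y)
      simp [this]
    rw [h1] at hF
    exact absurd (top_le_iff.1 hF) ENNReal.ofReal_ne_top
  obtain ⟨y, hy⟩ := hex
  have hL : MemLp f 2 μ := by
    have h1 : MemLp (fun x => f x - f y) 2 μ := by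
      refine (memLp_two_iff_integrable_sq
        (hf.continuous.sub continuous_const).aestronglyMeasurable).2 ?_
      refine ⟨((hf.continuous.sub continuous_const).pow 2).aestronglyMeasurable, ?_⟩
      rw [hasFiniteIntegral_iff_ofReal (Eventually.of_forall fun x => sq_nonneg _)]
      exact hy
    have h2 := h1.add (memLp_const (f y) (p := 2) (μ := μ))
    refine h2.ae_eq (Eventually.of_forall fun x => ?_)
    simp
  have hi1 : Integrable f μ := hL.integrable (by norm_num)
  have hi2 : Integrable (fun x => f x ^ 2) μ := hL.integrable_sq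
  have hgf : ∀ k x, |g k x| ≤ |f x| := by
    intro k x
    have h1 : |Real.arctan (f x / ((k : ℝ) + 1))| ≤ |f x / ((k : ℝ) + 1)| := arctan_abs _
    rw [abs_mul, abs_of_pos (hk k)]
    calc ((k : ℝ) + 1) * |Real.arctan (f x / ((k : ℝ) + 1))|
        ≤ ((k : ℝ) + 1) * |f x / ((k : ℝ) + 1)| := mul_le_mul_of_nonneg_left h1 (hk k).le
      _ = |f x| := by
          rw [abs_div, abs_of_pos (hk k)]
          have := (hk k).ne'
          field_simp
  have t1 : Tendsto (fun k => ∫ x, g k x ^ 2 ∂μ) atTop (𝓝 (∫ x, f x ^ 2 ∂μ)) := by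
    apply tendsto_integral_of_dominated_convergence (fun x => f x ^ 2)
    · intro k
      exact ((hgc k).continuous.pow 2).aestronglyMeasurable
    · exact hi2
    · intro k
      refine Eventually.of_forall fun x => ?_
      rw [Real.norm_of_nonneg (sq_nonneg _)]
      exact sq_le_sq.2 (hgf k x)
    · exact Eventually.of_forall fun x => (hglim x).pow 2
  have t2 : Tendsto (fun k => ∫ x, g k x ∂μ) atTop (𝓝 (∫ x, f x ∂μ)) := by
    apply tendsto_integral_of_dominated_convergence (fun x => |f x|)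
    · intro k
      exact ((hgc k).continuous).aestronglyMeasurable
    · exact hi1.abs
    · intro k
      exact Eventually.of_forall fun x => hgf k x
    · exact Eventually.of_forall fun x => hglim x
  have hfinal : ∫ x, f x ^ 2 ∂μ - (∫ x, f x ∂μ) ^ 2 ≤ V :=
    le_of_tendsto' (t1.sub (t2.pow 2)) hgV
  rw [← ofReal_variance hL, variance_eq_sub hL,
    ← ofReal_integral_eq_lintegral_ofReal hi (Eventually.of_forall fun x => sq_nonneg _),
    ← ENNReal.ofReal_mul hK.le]
  exact ENNReal.ofReal_le_ofReal hfinal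

end Pool.Agent.J4H21.OC.Ext
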