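import Pool.Agent.J4H58.OC.Stm
import Pool.Agent.R372.OP.SYM

/-!
# Symmetric functions of independent points and the order of the points (job OC-SYM)
-/

set_option autoImplicit false

namespace Pool.Agent.J4H21.OC

open MeasureTheory Set Filter Topology ProbabilityTheory
open Pool.Agent.J4H58.OC (ord S_SYM)
open Pool.Agent.R372.OP.SYM (Lc cntL)

variable {n : ℕ}

theorem ord_meas (R : Fin n → Fin n → Prop) : MeasurableSet (ord R) := by
  have h : ord R = ⋂ i, ⋂ j, ⋂ (_ : R i j), {x | x i ≤ x j} := by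
    ext x; simp only [ord, mem_ofPred_eq, mem_iInter]
  rw [h]
  exact (isClosed_iInter fun i =>
      isClosed_iInter fun j => isClosed_iInter fun _ =>
        isClosed_le (continuous_apply i) (continuous_apply j)).measurableSet

theorem perm (ν : Measure ℝ) [IsProbabilityMeasure ν] (p : Equiv.Perm (Fin n)) :
    MeasurePreserving (fun (x : Fin n → ℝ) i => x (p i)) (Measure.pi fun _ => ν)
      (Measure.pi fun _ => ν) ∧
    ∀ H : (Fin n → ℝ) → ℝ, ∫ x : Fin n → ℝ, H (fun i => x (p i)) ∂(Measure.pi fun _ => ν) =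
      ∫ x, H x ∂(Measure.pi fun _ => ν) := by
  have h := measurePreserving_piCongrLeft (α := fun _ : Fin n => ℝ) (fun _ => ν) p.symm
  have e : (MeasurableEquiv.piCongrLeft (fun _ : Fin n => ℝ) p.symm : (Fin n → ℝ) → (Fin n → ℝ))
      = fun x i => x (p i) := by
    funext x i
    rw [MeasurableEquiv.coe_piCongrLeft]
    have := Equiv.piCongrLeft_apply_apply (P := fun _ : Fin n => ℝ) p.symm x (p i)
    simpa using this
  constructor
  · rwa [e] at h
  · intro H
    have h2 := h.integral_comp' H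
    rw [e] at h2
    exact h2

theorem ties (ν : Measure ℝ) [IsProbabilityMeasure ν] (h0 : ∀ x, ν {x} = 0) :
    ∀ᵐ x : Fin n → ℝ ∂(Measure.pi fun _ => ν), Function.Injective x := by
  have hd : (ν.prod ν) (diagonal ℝ) = 0 := by
    rw [Measure.prod_apply isClosed_diagonal.measurableSet]
    have : ∀ x : ℝ, ν (Prod.mk x ⁻¹' diagonal ℝ) = 0 := by
      intro x
      have : Prod.mk x ⁻¹' diagonal ℝ = {x} := by
        ext y; simp [eq_comm]
      rw [this, h0]
    simp [this]
  have h : ∀ i j : Fin n, i ≠ j → ∀ᵐ x : Fin n → ℝ ∂(Measure.pi fun _ => ν), x i ≠ x j := by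
    intro i j hij
    have hI : iIndepFun (fun (i : Fin n) (ω : Fin n → ℝ) => ω i) (Measure.pi fun _ => ν) :=
      iIndepFun_pi (X := fun _ x => x) (fun _ => aemeasurable_id)
    have hij2 := hI.indepFun hij
    rw [indepFun_iff_map_prod_eq_prod_map_map (measurable_pi_apply i).aemeasurable
      (measurable_pi_apply j).aemeasurable] at hij2
    rw [(measurePreserving_eval (fun _ : Fin n => ν) i).map_eq,
      (measurePreserving_eval (fun _ : Fin n => ν) j).map_eq] at hij2
    rw [ae_iff]
    have h3 : {x : Fin n → ℝ | ¬ x i ≠ x j} = (fun ω : Fin n → ℝ => (ω i, ω j)) ⁻¹' diagonal ℝ := by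
      ext x; simp
    rw [h3, ← Measure.map_apply ((measurable_pi_apply i).prodMk (measurable_pi_apply j))
      isClosed_diagonal.measurableSet, hij2, hd]
  have h2 : ∀ᵐ x : Fin n → ℝ ∂(Measure.pi fun _ => ν), ∀ i j : Fin n, i ≠ j → x i ≠ x j := by
    rw [ae_all_iff]
    intro i
    rw [ae_all_iff]
    intro j
    by_cases hij : i = j
    · exact Eventually.of_forall fun x h => absurd hij h
    · filter_upwards [h i j hij] with x hx _
      exact hx
  filter_upwards [h2] with x hx i j hij
  by_contra hne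
  exact hx i j hne hij

open Classical in
theorem pt (R : Fin n → Fin n → Prop) (G : (Fin n → ℝ) → ℝ)
    (hG : ∀ (p : Equiv.Perm (Fin n)) (x : Fin n → ℝ), G (fun i => x (p i)) = G x)
    (x : Fin n → ℝ) (hx : Function.Injective x) :
    ∑ p : Equiv.Perm (Fin n), (ord R).indicator G (fun i => x (p i)) = (Lc R : ℝ) * G x := by
  have h1 : ∀ p : Equiv.Perm (Fin n), (ord R).indicator G (fun i => x (p i)) =
      if (∀ a b, R a b → x (p a) ≤ x (p b)) then G x else 0 := by
    intro p
    by_cases h : ∀ a b, R a b → x (p a) ≤ x (p b)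
    · have hm : (fun i => x (p i)) ∈ ord R := h
      rw [indicator_of_mem hm, if_pos h, hG]
    · have hm : (fun i => x (p i)) ∉ ord R := fun hm => h hm
      rw [indicator_of_notMem hm, if_neg h]
  rw [Finset.sum_congr rfl (fun p _ => h1 p), ← Finset.sum_filter, Finset.sum_const, cntL R x hx,
    nsmul_eq_mul]

theorem E1 (ν : Measure ℝ) [IsProbabilityMeasure ν] (h0 : ∀ x, ν {x} = 0)
    (R : Fin n → Fin n → Prop) (G : (Fin n → ℝ) → ℝ) (hc : Integrable G (Measure.pi fun _ => ν))
    (hG : ∀ (p : Equiv.Perm (Fin n)) (x : Fin n → ℝ), G (fun i => x (p i)) = G x) :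
    (Fintype.card (Equiv.Perm (Fin n)) : ℝ) * ∫ x in ord R, G x ∂(Measure.pi fun _ => ν) =
      (Lc R : ℝ) * ∫ x, G x ∂(Measure.pi fun _ => ν) := by
  have hint : Integrable ((ord R).indicator G) (Measure.pi fun _ => ν) :=
    hc.indicator (ord_meas R)
  have h1 : ∀ p : Equiv.Perm (Fin n),
      Integrable (fun x : Fin n → ℝ => (ord R).indicator G (fun i => x (p i)))
        (Measure.pi fun _ => ν) := by
    intro p
    exact ((perm ν p).1.integrable_comp hint.1).2 hint
  calc (Fintype.card (Equiv.Perm (Fin n)) : ℝ) * ∫ x in ord R, G x ∂(Measure.pi fun _ => ν)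
      = ∑ _p : Equiv.Perm (Fin n), ∫ x in ord R, G x ∂(Measure.pi fun _ => ν) := by
        rw [Finset.sum_const, Finset.card_univ, nsmul_eq_mul]
    _ = ∑ p : Equiv.Perm (Fin n), ∫ x : Fin n → ℝ, (ord R).indicator G (fun i => x (p i))
          ∂(Measure.pi fun _ => ν) := by
        apply Finset.sum_congr rfl
        intro p _
        rw [(perm ν p).2, integral_indicator (ord_meas R)]
    _ = ∫ x : Fin n → ℝ, ∑ p : Equiv.Perm (Fin n), (ord R).indicator G (fun i => x (p i))
          ∂(Measure.pi fun _ => ν) := by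
        rw [integral_finsetSum _ (fun p _ => h1 p)]
    _ = ∫ x : Fin n → ℝ, (Lc R : ℝ) * G x ∂(Measure.pi fun _ => ν) := by
        apply integral_congr_ae
        filter_upwards [ties ν h0] with x hx
        exact pt R G hG x hx
    _ = (Lc R : ℝ) * ∫ x, G x ∂(Measure.pi fun _ => ν) := by
        rw [integral_const_mul]

theorem t_SYM : S_SYM := by
  intro n ν hν h0 R G hc hG
  have e1 := E1 ν h0 R G hc hG
  have e2 := E1 ν h0 R (fun _ => 1) (integrable_const _) (fun _ _ => rfl)
  have e3 : ∫ x : Fin n → ℝ, (1 : ℝ) ∂(Measure.pi fun _ => ν) = 1 := by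
    simp
  have e4 : ∫ x in ord R, (1 : ℝ) ∂(Measure.pi fun _ => ν) =
      ((Measure.pi fun _ => ν) (ord R)).toReal := by
    simp [Measure.real]
  rw [e3, e4, mul_one] at e2
  rw [← e2] at e1
  have hpos : (Fintype.card (Equiv.Perm (Fin n)) : ℝ) ≠ 0 := by
    exact_mod_cast Fintype.card_ne_zero
  apply mul_left_cancel₀ hpos
  rw [e1]
  ring

end Pool.Agent.J4H21.OC
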